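import Pool.Agent.H90.GB.Red2

/-!
Gabow's cyclic ordering conjecture: for a minor-closed class of matroids the conjecture follows from
its 3-connected members.
-/

set_option autoImplicit false

namespace Pool.Agent.Results.MP_77f645_co.ThreeConnected

open Set

/-- The bases `B` and `B'` of `M` have a cyclic ordering: `l` lists `B`, `l'` lists `B'`, and all
blocks of `r` cyclically consecutive terms of `l ++ l'` are bases: these are the blocks
`l.drop i ++ l'.take i` and `l'.drop i ++ l.take i`, `0 ≤ i ≤ r`. -/
def HasCyclicOrdering {α : Type*} (M : Matroid α) (B B' : Set α) : Prop :=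
  ∃ l l' : List α, l.Nodup ∧ l'.Nodup ∧ {x | x ∈ l} = B ∧ {x | x ∈ l'} = B' ∧
    l.length = l'.length ∧ ∀ i ≤ l.length,
      M.IsBase {x | x ∈ l.drop i ++ l'.take i} ∧ M.IsBase {x | x ∈ l'.drop i ++ l.take i}

/-- The conclusion of Gabow's conjecture for all pairs of bases of `M`. -/
def Gabow {α : Type*} (M : Matroid α) : Prop :=
  ∀ B B', M.IsBase B → M.IsBase B' → HasCyclicOrdering M B B'

/-- `M` is 3-connected: it has no `k`-separation `(S, T)` for `k = 1, 2`. -/
def IsThreeConnected {α : Type*} (M : Matroid α) : Prop :=
  ∀ S T : Set α, S ∪ T = M.E → Disjoint S T → S.Nonempty → T.Nonempty →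
    M.eRank + 1 ≤ M.eRk S + M.eRk T ∧
      (S.Nontrivial → T.Nontrivial → M.eRank + 2 ≤ M.eRk S + M.eRk T)

theorem gp_iff {α : Type*} (M : Matroid α) (B B' : Set α) :
    H90.GB.GP M B B' ↔ HasCyclicOrdering M B B' := by
  constructor
  · rintro ⟨z, h1, h2, h3, h4, h5⟩
    refine ⟨z.map Prod.fst, z.map Prod.snd, h1, h2, h3, h4, by simp, ?_⟩
    intro i _
    have h6 := h5 (z.take i) (z.drop i) (List.take_append_drop i z).symm
    rw [List.map_drop, List.map_take, List.map_drop, List.map_take] at h6
    exact h6
  · rintro ⟨l, l', h1, h2, h3, h4, h5, h6⟩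
    have e1 : (l.zip l').map Prod.fst = l := List.map_fst_zip h5.le
    have e2 : (l.zip l').map Prod.snd = l' := List.map_snd_zip h5.ge
    refine ⟨l.zip l', by rwa [e1], by rwa [e2], by rw [e1]; exact h3, by rw [e2]; exact h4, ?_⟩
    intro s t hst
    have hlen : s.length ≤ l.length := by
      have h7 := congrArg List.length hst
      rw [List.length_zip, List.length_append] at h7
      omega
    have h7 := h6 s.length hlen
    have e3 : l.drop s.length = t.map Prod.fst := by
      rw [← e1, hst, List.map_append]
      exact List.drop_left' (by simp)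
    have e4 : l'.drop s.length = t.map Prod.snd := by
      rw [← e2, hst, List.map_append]
      exact List.drop_left' (by simp)
    have e5 : l.take s.length = s.map Prod.fst := by
      rw [← e1, hst, List.map_append]
      exact List.take_left' (by simp)
    have e6 : l'.take s.length = s.map Prod.snd := by
      rw [← e2, hst, List.map_append]
      exact List.take_left' (by simp)
    rw [e3, e4, e5, e6] at h7
    exact h7

theorem ga_iff {α : Type*} (M : Matroid α) : H90.GB.GA M ↔ Gabow M := by
  constructor
  · intro h B B' hB hB'
    rw [← gp_iff]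
    exact h B B' hB hB'
  · intro h B B' hB hB'
    rw [gp_iff]
    exact h B B' hB hB'

/-- For a minor-closed class of matroids Gabow's conjecture follows from the 3-connected members of
the class. -/
theorem result {α : Type*} (C : Matroid α → Prop) (hC : ∀ M N, C M → N ≤m M → C N)
    (h3 : ∀ M, C M → M.Finite → IsThreeConnected M → Gabow M) :
    ∀ M, C M → M.Finite → Gabow M := by
  have key : ∀ n : ℕ, ∀ M, C M → M.Finite → M.E.ncard = n → Gabow M := by
    intro n
    induction n using Nat.strong_induction_on with
    | _ n ih =>
      intro M hM hfin hn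
      by_contra hG
      apply hG
      apply h3 M hM hfin
      intro S T hST hd hS hT
      refine H90.GB.three (M := M) (by rw [ga_iff]; exact hG) ?_ hST hd hS hT
      intro N hN
      rw [ga_iff]
      have hss := hN.ssubset
      have hlt : N.E.ncard < n := by
        rw [← hn]
        exact ncard_lt_ncard hss hfin.ground_finite
      exact ih _ hlt N (hC M N hM hN.isMinor) ⟨hfin.ground_finite.subset hss.subset⟩ rfl
  intro M hM hfin
  exact key _ M hM hfin rfl

end Pool.Agent.Results.MP_77f645_co.ThreeConnected
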