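import Pool.Agent.H90.GB.Opp

/-!
Gabow's cyclic ordering conjecture: the class of the matroids for which it is true is closed under
2-sums.
-/

set_option autoImplicit false

namespace Pool.Agent.Results.MP_77f645_co.TwoSums

open Set

/-- The bases `B` and `B'` of `M` have a cyclic ordering: `l` lists `B`, `l'` lists `B'`, and all
blocks of `r` cyclically consecutive terms of `l ++ l'` are bases: these are the blocks
`l.drop i ++ l'.take i` and `l'.drop i ++ l.take i`, `0 ≤ i ≤ r`. -/
def HasCyclicOrdering {α : Type*} (M : Matroid α) (B B' : Set α) : Prop :=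
  ∃ l l' : List α, l.Nodup ∧ l'.Nodup ∧ {x | x ∈ l} = B ∧ {x | x ∈ l'} = B' ∧
    l.length = l'.length ∧ ∀ i ≤ l.length,
      M.IsBase {x | x ∈ l.drop i ++ l'.take i} ∧ M.IsBase {x | x ∈ l'.drop i ++ l.take i}

/-- The conclusion of Gabow's conjecture for all pairs of bases of `M`. -/
def Gabow {α : Type*} (M : Matroid α) : Prop :=
  ∀ B B', M.IsBase B → M.IsBase B' → HasCyclicOrdering M B B'

/-- `M` is the 2-sum of `M₁` and `M₂` with base point `p`: the ground sets of `M₁` and `M₂` have
only `p` in common, the bases of `M` are the sets `(A₁ ∪ A₂) \ {p}`, where `A₁`, `A₂` are bases of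
`M₁`, `M₂` and exactly one of them contains `p`. -/
def IsTwoSum {α : Type*} (M₁ M₂ M : Matroid α) (p : α) : Prop :=
  M₁.E ∩ M₂.E = {p} ∧ M.E = (M₁.E ∪ M₂.E) \ {p} ∧
    ∀ X, M.IsBase X ↔ ∃ A₁ A₂, M₁.IsBase A₁ ∧ M₂.IsBase A₂ ∧ (p ∈ A₁ ↔ p ∉ A₂) ∧
      X = (A₁ ∪ A₂) \ {p}

theorem gp_iff {α : Type*} (M : Matroid α) (B B' : Set α) :
    H90.GB.GP M B B' ↔ HasCyclicOrdering M B B' := by
  constructor
  · rintro ⟨z, h1, h2, h3, h4, h5⟩
    refine ⟨z.map Prod.fst, z.map Prod.snd, h1, h2, h3, h4, by simp, ?_⟩
    intro i _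
    have h6 := h5 (z.take i) (z.drop i) (List.take_append_drop i z).symm
    rw [List.map_drop, List.map_take, List.map_drop, List.map_take] at h6
    exact h6
  · rintro ⟨l, l', h1, h2, h3, h4, h5, h6⟩
    have e1 : (l.zip l').map Prod.fst = l := List.map_fst_zip h5.le
    have e2 : (l.zip l').map Prod.snd = l' := List.map_snd_zip h5.ge
    refine ⟨l.zip l', by rwa [e1], by rwa [e2], by rw [e1]; exact h3, by rw [e2]; exact h4, ?_⟩
    intro s t hst
    have hlen : s.length ≤ l.length := by
      have h7 := congrArg List.length hst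
      rw [List.length_zip, List.length_append] at h7
      omega
    have h7 := h6 s.length hlen
    have e3 : l.drop s.length = t.map Prod.fst := by
      rw [← e1, hst, List.map_append]
      exact List.drop_left' (by simp)
    have e4 : l'.drop s.length = t.map Prod.snd := by
      rw [← e2, hst, List.map_append]
      exact List.drop_left' (by simp)
    have e5 : l.take s.length = s.map Prod.fst := by
      rw [← e1, hst, List.map_append]
      exact List.take_left' (by simp)
    have e6 : l'.take s.length = s.map Prod.snd := by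
      rw [← e2, hst, List.map_append]
      exact List.take_left' (by simp)
    rw [e3, e4, e5, e6] at h7
    exact h7

/-- The conclusion of Gabow's conjecture is preserved by 2-sums. -/
theorem result {α : Type*} (M₁ M₂ M : Matroid α) (p : α) (h : IsTwoSum M₁ M₂ M p)
    (h₁ : Gabow M₁) (h₂ : Gabow M₂) : Gabow M := by
  intro B B' hB hB'
  rw [← gp_iff]
  refine H90.GB.twoSum (M₁ := M₁) (M₂ := M₂) (p := p) ⟨h.1, h.2.2⟩ ?_ ?_ B B' hB hB'
  · intro C C' hC hC'
    rw [gp_iff]
    exact h₁ C C' hC hC'
  · intro C C' hC hC'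
    rw [gp_iff]
    exact h₂ C C' hC hC'

end Pool.Agent.Results.MP_77f645_co.TwoSums
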